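import Mathlib

/-!
MP_7fc85e_an, stage 3A: resampling one coordinate of a product measure, second moments.
-/

open Finset MeasureTheory
open scoped ENNReal Real

namespace Pool.Agent.Helper64.SB

/-- bounded measurable functions are integrable -/
lemma intb {α : Type} [MeasurableSpace α] {ν : Measure α} [IsProbabilityMeasure ν] {f : α → ℝ}
    (hf : Measurable f) {C : ℝ} (hC : ∀ x, |f x| ≤ C) : Integrable f ν :=
  Integrable.of_bound hf.aestronglyMeasurable C (ae_of_all _ (by simpa using hC))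

section

variable {Ω : Type} [MeasurableSpace Ω] (μ : Measure Ω) [IsProbabilityMeasure μ] {N : ℕ}

lemma mp_update (i : Fin N) :
    MeasurePreserving (fun p : (Fin N → Ω) × Ω => Function.update p.1 i p.2)
      ((Measure.pi fun _ : Fin N => μ).prod μ) (Measure.pi fun _ : Fin N => μ) := by
  refine ⟨measurable_update', ?_⟩
  symm
  apply Measure.pi_eq
  intro s hs
  rw [Measure.map_apply measurable_update' (MeasurableSet.univ_pi hs)]
  have h : (fun p : (Fin N → Ω) × Ω => Function.update p.1 i p.2) ⁻¹' (Set.univ.pi s) =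
      (Set.univ.pi (Function.update s i Set.univ)) ×ˢ s i := by
    ext ⟨Y, t⟩
    simp only [Set.mem_preimage, Set.mem_univ_pi, Set.mem_prod]
    constructor
    · intro h
      refine ⟨fun j => ?_, ?_⟩
      · by_cases hj : j = i
        · subst hj; simp
        · have := h j
          rw [Function.update_of_ne hj] at this ⊢
          exact this
      · simpa using h i
    · rintro ⟨h1, h2⟩ j
      by_cases hj : j = i
      · subst hj; simpa using h2
      · have := h1 j
        rw [Function.update_of_ne hj] at this ⊢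
        exact this
  rw [h, Measure.prod_prod, Measure.pi_pi,
    ← Finset.mul_prod_erase univ (fun j => μ (Function.update s i Set.univ j)) (mem_univ i),
    ← Finset.mul_prod_erase univ (fun j => μ (s j)) (mem_univ i)]
  have h2 : ∏ j ∈ univ.erase i, μ (Function.update s i Set.univ j) = ∏ j ∈ univ.erase i, μ (s j) := by
    apply Finset.prod_congr rfl
    intro j hj
    rw [Function.update_of_ne (Finset.ne_of_mem_erase hj)]
  rw [h2]
  simp [mul_comm]

lemma integral_update (i : Fin N) {F : (Fin N → Ω) → ℝ} (hF : Measurable F) {C : ℝ}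
    (hC : ∀ Y, |F Y| ≤ C) :
    ∫ Y, F Y ∂(Measure.pi fun _ : Fin N => μ) =
      ∫ Y, ∫ t, F (Function.update Y i t) ∂μ ∂(Measure.pi fun _ : Fin N => μ) := by
  have h1 : Measurable fun p : (Fin N → Ω) × Ω => F (Function.update p.1 i p.2) :=
    hF.comp measurable_update'
  rw [← integral_prod (fun p : (Fin N → Ω) × Ω => F (Function.update p.1 i p.2))
    (intb h1 fun p => hC _)]
  conv_lhs => rw [← (mp_update μ i).map_eq]
  rw [integral_map measurable_update'.aemeasurable hF.aestronglyMeasurable]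

lemma integral_zero_update (i : Fin N) {F : (Fin N → Ω) → ℝ} (hF : Measurable F) {C : ℝ}
    (hC : ∀ Y, |F Y| ≤ C) (h : ∀ Y, ∫ t, F (Function.update Y i t) ∂μ = 0) :
    ∫ Y, F Y ∂(Measure.pi fun _ : Fin N => μ) = 0 := by
  rw [integral_update μ i hF hC]
  simp [h]

lemma integral_coord (i : Fin N) {f : Ω → ℝ} (hf : Measurable f) {C : ℝ} (hC : ∀ x, |f x| ≤ C) :
    ∫ Y, f (Y i) ∂(Measure.pi fun _ : Fin N => μ) = ∫ x, f x ∂μ := by
  rw [integral_update μ i (F := fun Y => f (Y i)) (hf.comp (measurable_pi_apply i))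
    (fun Y => hC (Y i))]
  simp

/-- the second moment of a sum of iid centred variables -/
lemma second_moment {f : Ω → ℝ} (hf : Measurable f) {C : ℝ} (hC : ∀ x, |f x| ≤ C)
    (h0 : ∫ x, f x ∂μ = 0) :
    ∫ X, (∑ i, f (X i)) ^ 2 ∂(Measure.pi fun _ : Fin N => μ) = N * ∫ x, f x ^ 2 ∂μ := by
  have hC0 : ∀ Y : Fin N → Ω, ∀ i j, |f (Y i) * f (Y j)| ≤ C * C := by
    intro Y i j
    rw [abs_mul]
    exact mul_le_mul (hC _) (hC _) (abs_nonneg _) ((abs_nonneg _).trans (hC (Y i)))
  have hmi : ∀ i : Fin N, Measurable fun Y : Fin N → Ω => f (Y i) :=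
    fun i => hf.comp (measurable_pi_apply i)
  have hmm : ∀ i j : Fin N, Measurable fun Y : Fin N → Ω => f (Y i) * f (Y j) :=
    fun i j => (hmi i).mul (hmi j)
  have h1 : ∀ i j : Fin N, ∫ X, f (X i) * f (X j) ∂(Measure.pi fun _ : Fin N => μ) =
      if j = i then ∫ x, f x ^ 2 ∂μ else 0 := by
    intro i j
    split_ifs with h
    · subst h
      rw [← integral_coord μ (N := N) j (f := fun x => f x ^ 2) (hf.pow_const 2) (C := C ^ 2)
        (fun x => by
          rw [abs_pow]
          exact pow_le_pow_left₀ (abs_nonneg _) (hC x) 2)]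
      simp only [pow_two]
    · apply integral_zero_update μ i (hmm i j) (fun Y => hC0 Y i j)
      intro Y
      simp only [Function.update_self, Function.update_of_ne h]
      rw [integral_mul_const, h0, zero_mul]
  have h2 : ∀ X : Fin N → Ω, (∑ i, f (X i)) ^ 2 = ∑ i, ∑ j, f (X i) * f (X j) := by
    intro X
    rw [pow_two, Finset.sum_mul_sum]
  simp only [h2]
  rw [integral_finsetSum _ fun i _ => integrable_finsetSum _ fun j _ =>
    intb (hmm i j) fun Y => hC0 Y i j]
  have h3 : ∀ i : Fin N, ∫ X, ∑ j, f (X i) * f (X j) ∂(Measure.pi fun _ : Fin N => μ) =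
      ∫ x, f x ^ 2 ∂μ := by
    intro i
    rw [integral_finsetSum _ fun j _ => intb (hmm i j) fun Y => hC0 Y i j]
    simp only [h1]
    simp
  simp only [h3]
  simp

/-- Markov for the square -/
lemma cheb {α : Type} [MeasurableSpace α] {ν : Measure α} [IsProbabilityMeasure ν] {f : α → ℝ}
    (hf : Measurable f) {C : ℝ} (hC : ∀ x, |f x| ≤ C) {ε : ℝ} (hε : 0 < ε) :
    ν.real {x | ε < |f x|} ≤ (∫ x, f x ^ 2 ∂ν) / ε ^ 2 := by
  have h1 := mul_meas_ge_le_integral_of_nonneg (μ := ν) (f := fun x => f x ^ 2)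
    (ae_of_all _ fun x => by positivity)
    (intb (hf.pow_const 2) (C := C ^ 2) fun x => by
      rw [abs_pow]; exact pow_le_pow_left₀ (abs_nonneg _) (hC x) 2) (ε ^ 2)
  have h2 : ν.real {x | ε < |f x|} ≤ ν.real {x | ε ^ 2 ≤ f x ^ 2} := by
    apply measureReal_mono
    · intro x hx
      simp only [Set.mem_ofPred_eq] at hx ⊢
      rw [← sq_abs (f x)]
      exact pow_le_pow_left₀ hε.le hx.le 2
    · exact measure_ne_top _ _
  rw [le_div_iff₀ (by positivity)]
  calc ν.real {x | ε < |f x|} * ε ^ 2 ≤ ν.real {x | ε ^ 2 ≤ f x ^ 2} * ε ^ 2 := by gcongr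
    _ = ε ^ 2 * ν.real {x | ε ^ 2 ≤ f x ^ 2} := mul_comm _ _
    _ ≤ _ := h1

end

end Pool.Agent.Helper64.SB
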