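import Pool.Agent.Helper64.SB.Upd

/-!
MP_7fc85e_an, stage 3A: even moments of sums of independent centred variables.
-/

open Finset MeasureTheory
open scoped ENNReal Real

namespace Pool.Agent.Helper64.SB

lemma mono_bound (c k : ℕ) (hk : k ≤ 2 * c) (s z : ℝ) :
    z ^ (k + 2) * s ^ (2 * c - k) ≤ s ^ (2 * c) * z ^ 2 + z ^ (2 * c + 2) := by
  have h1 : z ^ (k + 2) * s ^ (2 * c - k) ≤ |z| ^ (k + 2) * |s| ^ (2 * c - k) := by
    rw [← abs_pow, ← abs_pow, ← abs_mul]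
    exact le_abs_self _
  have e1 : s ^ (2 * c) = |s| ^ (2 * c) := by
    rw [pow_mul, pow_mul, sq_abs]
  have e2 : z ^ 2 = |z| ^ 2 := (sq_abs z).symm
  have e3 : z ^ (2 * c + 2) = |z| ^ (2 * c + 2) := by
    rw [show 2 * c + 2 = 2 * (c + 1) by ring, pow_mul, pow_mul, sq_abs]
  rw [e1, e2, e3]
  refine h1.trans ?_
  have hz := abs_nonneg z
  have hs := abs_nonneg s
  generalize |z| = u at *
  generalize |s| = v at *
  rcases le_total u v with h | h
  · have h2 : u ^ k * v ^ (2 * c - k) ≤ v ^ (2 * c) := by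
      calc u ^ k * v ^ (2 * c - k) ≤ v ^ k * v ^ (2 * c - k) := by gcongr
        _ = v ^ (2 * c) := by rw [← pow_add]; congr 1; omega
    calc u ^ (k + 2) * v ^ (2 * c - k) = u ^ k * v ^ (2 * c - k) * u ^ 2 := by ring
      _ ≤ v ^ (2 * c) * u ^ 2 := by gcongr
      _ ≤ _ := by
          have : 0 ≤ u ^ (2 * c + 2) := by positivity
          linarith
  · calc u ^ (k + 2) * v ^ (2 * c - k) ≤ u ^ (k + 2) * u ^ (2 * c - k) := by gcongr
      _ = u ^ (2 * c + 2) := by rw [← pow_add]; congr 1; omega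
      _ ≤ _ := by
          have : 0 ≤ v ^ (2 * c) * u ^ 2 := by positivity
          linarith

lemma pow_step (c : ℕ) (s z : ℝ) :
    (s + z) ^ (2 * c + 2) ≤ s ^ (2 * c + 2) + (2 * c + 2) * s ^ (2 * c + 1) * z +
      4 ^ (c + 1) * (s ^ (2 * c) * z ^ 2 + z ^ (2 * c + 2)) := by
  rw [add_comm s z, add_pow, Finset.sum_range_succ', Finset.sum_range_succ']
  have hsum : ∑ k ∈ range (2 * c + 1), z ^ (k + 1 + 1) * s ^ (2 * c + 2 - (k + 1 + 1)) *
      ((2 * c + 2).choose (k + 1 + 1) : ℝ) ≤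
      4 ^ (c + 1) * (s ^ (2 * c) * z ^ 2 + z ^ (2 * c + 2)) := by
    have hnn : 0 ≤ s ^ (2 * c) * z ^ 2 + z ^ (2 * c + 2) := by
      have := mono_bound c 0 (by omega) s z
      have e1 : 0 ≤ s ^ (2 * c) := by rw [pow_mul]; positivity
      have e2 : 0 ≤ z ^ (2 * c + 2) := by
        rw [show 2 * c + 2 = 2 * (c + 1) by ring, pow_mul]; positivity
      positivity
    calc _ ≤ ∑ k ∈ range (2 * c + 1), (s ^ (2 * c) * z ^ 2 + z ^ (2 * c + 2)) *
          ((2 * c + 2).choose (k + 1 + 1) : ℝ) := by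
          apply Finset.sum_le_sum
          intro k hk
          rw [mem_range] at hk
          have := mono_bound c k (by omega) s z
          rw [show 2 * c + 2 - (k + 1 + 1) = 2 * c - k by omega, show k + 1 + 1 = k + 2 by omega]
          gcongr
      _ = (s ^ (2 * c) * z ^ 2 + z ^ (2 * c + 2)) *
          ((∑ k ∈ range (2 * c + 1), (2 * c + 2).choose (k + 1 + 1) : ℕ) : ℝ) := by
          rw [← Finset.mul_sum]; push_cast; rfl
      _ ≤ (s ^ (2 * c) * z ^ 2 + z ^ (2 * c + 2)) * ((4 ^ (c + 1) : ℕ) : ℝ) := by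
          gcongr
          have h1 := Nat.sum_range_choose (2 * c + 2)
          rw [Finset.sum_range_succ', Finset.sum_range_succ'] at h1
          have h2 : 2 ^ (2 * c + 2) = 4 ^ (c + 1) := by
            rw [show 2 * c + 2 = 2 * (c + 1) by ring, pow_mul]
            norm_num
          omega
      _ = _ := by push_cast; ring
  have e1 : z ^ (0 + 1) * s ^ (2 * c + 2 - (0 + 1)) * ((2 * c + 2).choose (0 + 1) : ℝ) =
      (2 * c + 2) * s ^ (2 * c + 1) * z := by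
    rw [show 2 * c + 2 - (0 + 1) = 2 * c + 1 by omega, zero_add, Nat.choose_one_right]
    push_cast
    ring
  have e2 : z ^ 0 * s ^ (2 * c + 2 - 0) * ((2 * c + 2).choose 0 : ℝ) = s ^ (2 * c + 2) := by
    simp
  rw [e1, e2]
  linarith

section

variable {Ω : Type} [MeasurableSpace Ω] (μ : Measure Ω) [IsProbabilityMeasure μ] {N : ℕ}

lemma ros_step {Z : Ω → ℝ} (hZ : Measurable Z) {M : ℝ} (hM : ∀ x, |Z x| ≤ M)
    (h0 : ∫ x, Z x ∂μ = 0) (c : ℕ) (A : Finset (Fin N)) (a : Fin N) (ha : a ∉ A) :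
    ∫ X : Fin N → Ω, (∑ i ∈ insert a A, Z (X i)) ^ (2 * c + 2) ∂(Measure.pi fun _ : Fin N => μ) ≤
      ∫ X : Fin N → Ω, (∑ i ∈ A, Z (X i)) ^ (2 * c + 2) ∂(Measure.pi fun _ : Fin N => μ) +
      4 ^ (c + 1) * ((∫ X : Fin N → Ω, (∑ i ∈ A, Z (X i)) ^ (2 * c)
        ∂(Measure.pi fun _ : Fin N => μ)) * ∫ x, Z x ^ 2 ∂μ + ∫ x, Z x ^ (2 * c + 2) ∂μ) := by
  have hSm : ∀ B : Finset (Fin N), Measurable fun X : Fin N → Ω => ∑ i ∈ B, Z (X i) :=
    fun B => Finset.measurable_sum _ fun i _ => hZ.comp (measurable_pi_apply i)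
  have hSb : ∀ (B : Finset (Fin N)) (X : Fin N → Ω), |∑ i ∈ B, Z (X i)| ≤ B.card * M := by
    intro B X
    calc _ ≤ ∑ i ∈ B, |Z (X i)| := Finset.abs_sum_le_sum_abs _ _
      _ ≤ ∑ _i ∈ B, M := Finset.sum_le_sum fun i _ => hM _
      _ = B.card * M := by rw [Finset.sum_const, nsmul_eq_mul]
  have hSp : ∀ (B : Finset (Fin N)) (q : ℕ) (X : Fin N → Ω), |(∑ i ∈ B, Z (X i)) ^ q| ≤
      (B.card * M) ^ q := by
    intro B q X
    rw [abs_pow]
    exact pow_le_pow_left₀ (abs_nonneg _) (hSb B X) q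
  have hZp : ∀ (q : ℕ) (x : Ω), |Z x ^ q| ≤ M ^ q := by
    intro q x
    rw [abs_pow]
    exact pow_le_pow_left₀ (abs_nonneg _) (hM x) q
  rw [integral_update μ a (F := fun X => (∑ i ∈ insert a A, Z (X i)) ^ (2 * c + 2))
    ((hSm _).pow_const _) (hSp (insert a A) _)]
  have e1 : ∀ (X : Fin N → Ω) (t : Ω), ∑ i ∈ insert a A, Z (Function.update X a t i) =
      ∑ i ∈ A, Z (X i) + Z t := by
    intro X t
    rw [Finset.sum_insert ha, Function.update_self, add_comm]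
    congr 1
    apply Finset.sum_congr rfl
    intro i hi
    rw [Function.update_of_ne]
    rintro rfl
    exact ha hi
  simp only [e1]
  have i0 : Integrable (fun t => Z t) μ := intb hZ hM
  have i2 : Integrable (fun t => Z t ^ 2) μ := intb (hZ.pow_const 2) (hZp 2)
  have i3 : Integrable (fun t => Z t ^ (2 * c + 2)) μ := intb (hZ.pow_const _) (hZp _)
  have hin : ∀ X : Fin N → Ω, ∫ t, (∑ i ∈ A, Z (X i) + Z t) ^ (2 * c + 2) ∂μ ≤
      (∑ i ∈ A, Z (X i)) ^ (2 * c + 2) + 4 ^ (c + 1) * ((∑ i ∈ A, Z (X i)) ^ (2 * c) *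
        ∫ x, Z x ^ 2 ∂μ + ∫ x, Z x ^ (2 * c + 2) ∂μ) := by
    intro X
    set s := ∑ i ∈ A, Z (X i) with hs
    have j1 : Integrable (fun t => s ^ (2 * c + 2) + (2 * c + 2) * s ^ (2 * c + 1) * Z t) μ :=
      (integrable_const _).add (i0.const_mul _)
    have j2 : Integrable (fun t => s ^ (2 * c) * Z t ^ 2 + Z t ^ (2 * c + 2)) μ :=
      (i2.const_mul _).add i3
    have j3 : Integrable (fun t => (s + Z t) ^ (2 * c + 2)) μ := by
      apply intb ((hZ.const_add s).pow_const _) (C := (|s| + M) ^ (2 * c + 2))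
      intro t
      rw [abs_pow]
      apply pow_le_pow_left₀ (abs_nonneg _)
      exact (abs_add_le _ _).trans (by linarith [hM t])
    calc ∫ t, (s + Z t) ^ (2 * c + 2) ∂μ ≤
          ∫ t, (s ^ (2 * c + 2) + (2 * c + 2) * s ^ (2 * c + 1) * Z t +
            4 ^ (c + 1) * (s ^ (2 * c) * Z t ^ 2 + Z t ^ (2 * c + 2))) ∂μ :=
          integral_mono j3 (j1.add (j2.const_mul _)) fun t => pow_step c s (Z t)
      _ = _ := by
          rw [integral_add j1 (j2.const_mul _), integral_add (integrable_const _) (i0.const_mul _),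
            integral_const_mul, integral_const_mul, integral_add (i2.const_mul _) i3,
            integral_const_mul, h0]
          simp
  have k1 : Integrable (fun X : Fin N → Ω => (∑ i ∈ A, Z (X i)) ^ (2 * c + 2))
      (Measure.pi fun _ : Fin N => μ) := intb ((hSm A).pow_const _) (hSp A _)
  have k2 : Integrable (fun X : Fin N → Ω => (∑ i ∈ A, Z (X i)) ^ (2 * c))
      (Measure.pi fun _ : Fin N => μ) := intb ((hSm A).pow_const _) (hSp A _)
  have k3 : Integrable (fun X : Fin N → Ω => (∑ i ∈ A, Z (X i)) ^ (2 * c) *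
      ∫ x, Z x ^ 2 ∂μ + ∫ x, Z x ^ (2 * c + 2) ∂μ) (Measure.pi fun _ : Fin N => μ) :=
    (k2.mul_const _).add (integrable_const _)
  have hev : ∀ X : Fin N → Ω, 0 ≤ ∫ t, (∑ i ∈ A, Z (X i) + Z t) ^ (2 * c + 2) ∂μ := by
    intro X
    apply integral_nonneg
    intro t
    simp only [Pi.zero_apply]
    rw [show 2 * c + 2 = 2 * (c + 1) by ring, pow_mul]
    positivity
  calc ∫ X : Fin N → Ω, ∫ t, (∑ i ∈ A, Z (X i) + Z t) ^ (2 * c + 2) ∂μ
        ∂(Measure.pi fun _ : Fin N => μ) ≤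
        ∫ X : Fin N → Ω, ((∑ i ∈ A, Z (X i)) ^ (2 * c + 2) + 4 ^ (c + 1) *
          ((∑ i ∈ A, Z (X i)) ^ (2 * c) * ∫ x, Z x ^ 2 ∂μ + ∫ x, Z x ^ (2 * c + 2) ∂μ))
          ∂(Measure.pi fun _ : Fin N => μ) :=
        integral_mono_of_nonneg (ae_of_all _ hev) (k1.add (k3.const_mul _)) (ae_of_all _ hin)
    _ = _ := by
        rw [integral_add k1 (k3.const_mul _), integral_const_mul,
          integral_add (k2.mul_const _) (integrable_const _), integral_mul_const]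
        simp

lemma mid_moment {Z : Ω → ℝ} (hZ : Measurable Z) {M : ℝ} (hM : ∀ x, |Z x| ≤ M) (c : ℕ)
    {K : ℝ} (hK : 0 ≤ K) :
    K ^ 2 * (∫ x, Z x ^ 2 ∂μ) * (∫ x, Z x ^ (2 * c + 2) ∂μ) ≤
      (K * ∫ x, Z x ^ 2 ∂μ) ^ (c + 2) + K * ∫ x, Z x ^ (2 * c + 4) ∂μ := by
  have hZp : ∀ (q : ℕ) (x : Ω), |Z x ^ q| ≤ M ^ q := by
    intro q x
    rw [abs_pow]
    exact pow_le_pow_left₀ (abs_nonneg _) (hM x) q
  have i2 : Integrable (fun t => Z t ^ 2) μ := intb (hZ.pow_const 2) (hZp 2)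
  have i3 : Integrable (fun t => Z t ^ (2 * c + 2)) μ := intb (hZ.pow_const _) (hZp _)
  have i4 : Integrable (fun t => Z t ^ (2 * c + 4)) μ := intb (hZ.pow_const _) (hZp _)
  set m2 := ∫ x, Z x ^ 2 ∂μ with hm2
  have hm20 : 0 ≤ m2 := integral_nonneg fun x => by positivity
  set t := K * m2 with ht
  have ht0 : 0 ≤ t := by positivity
  have hpt : ∀ z : ℝ, t * z ^ (2 * c + 2) ≤ t ^ (c + 1) * z ^ 2 + z ^ (2 * c + 4) := by
    intro z
    have e1 : z ^ (2 * c + 2) = (z ^ 2) ^ c * z ^ 2 := by ring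
    have e2 : z ^ (2 * c + 4) = (z ^ 2) ^ (c + 1) * z ^ 2 := by ring
    rw [e1, e2]
    have hw : 0 ≤ z ^ 2 := by positivity
    generalize z ^ 2 = w at hw
    rcases le_total w t with h | h
    · have : w ^ c ≤ t ^ c := by gcongr
      calc t * (w ^ c * w) ≤ t * (t ^ c * w) := by gcongr
        _ = t ^ (c + 1) * w := by ring
        _ ≤ _ := by
            have : 0 ≤ w ^ (c + 1) * w := by positivity
            linarith
    · calc t * (w ^ c * w) ≤ w * (w ^ c * w) := by gcongr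
        _ = w ^ (c + 1) * w := by ring
        _ ≤ _ := by
            have : 0 ≤ t ^ (c + 1) * w := by positivity
            linarith
  have hint : t * ∫ x, Z x ^ (2 * c + 2) ∂μ ≤ t ^ (c + 1) * m2 + ∫ x, Z x ^ (2 * c + 4) ∂μ := by
    rw [hm2, ← integral_const_mul, ← integral_const_mul, ← integral_add (i2.const_mul _) i4]
    exact integral_mono (i3.const_mul _) ((i2.const_mul _).add i4) fun x => hpt (Z x)
  calc K ^ 2 * m2 * (∫ x, Z x ^ (2 * c + 2) ∂μ) = K * (t * ∫ x, Z x ^ (2 * c + 2) ∂μ) := by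
        rw [ht]; ring
    _ ≤ K * (t ^ (c + 1) * m2 + ∫ x, Z x ^ (2 * c + 4) ∂μ) := by gcongr
    _ = t ^ (c + 1) * (K * m2) + K * ∫ x, Z x ^ (2 * c + 4) ∂μ := by ring
    _ = _ := by rw [← ht]; ring

end

theorem rosenthal_set (c : ℕ) : ∃ C > 0, ∀ (Ω : Type) [MeasurableSpace Ω]
    (μ : Measure Ω) [IsProbabilityMeasure μ] (Z : Ω → ℝ), Measurable Z →
    ∀ M : ℝ, (∀ x, |Z x| ≤ M) → ∫ x, Z x ∂μ = 0 → ∀ (N : ℕ) (A : Finset (Fin N)),
      ∫ X : Fin N → Ω, (∑ i ∈ A, Z (X i)) ^ (2 * c + 2) ∂(Measure.pi fun _ : Fin N => μ) ≤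
        C * (A.card * ∫ x, Z x ^ (2 * c + 2) ∂μ + (A.card * ∫ x, Z x ^ 2 ∂μ) ^ (c + 1)) := by
  induction c with
  | zero =>
    refine ⟨8, by norm_num, ?_⟩
    intro Ω _ μ _ Z hZ M hM h0 N A
    have hm20 : 0 ≤ ∫ x, Z x ^ 2 ∂μ := integral_nonneg fun x => by positivity
    have key : ∫ X : Fin N → Ω, (∑ i ∈ A, Z (X i)) ^ (2 * 0 + 2)
        ∂(Measure.pi fun _ : Fin N => μ) ≤ 8 * (A.card * ∫ x, Z x ^ 2 ∂μ) := by
      induction A using Finset.induction_on with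
      | empty => simp
      | insert a A ha ih =>
        refine (ros_step μ hZ hM h0 0 A a ha).trans ?_
        rw [Finset.card_insert_of_notMem ha]
        simp only [Nat.mul_zero, pow_zero, zero_add, integral_const, probReal_univ, one_smul,
          pow_one] at ih ⊢
        push_cast
        linarith
    refine key.trans ?_
    simp only [Nat.mul_zero, zero_add, pow_one]
    have : 0 ≤ (A.card : ℝ) * ∫ x, Z x ^ 2 ∂μ := by positivity
    linarith
  | succ c ih =>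
    obtain ⟨C', hC', ih⟩ := ih
    refine ⟨4 ^ (c + 2) * (2 * C' + 1), by positivity, ?_⟩
    intro Ω _ μ _ Z hZ M hM h0 N A₀
    have hm20 : 0 ≤ ∫ x, Z x ^ 2 ∂μ := integral_nonneg fun x => by positivity
    have hme : ∀ q : ℕ, 0 ≤ ∫ x, Z x ^ (2 * q) ∂μ := fun q => integral_nonneg fun x => by
      simp only [Pi.zero_apply]
      rw [pow_mul]
      positivity
    have hme1 : 0 ≤ ∫ x, Z x ^ (2 * c + 2) ∂μ := by
      have := hme (c + 1)
      rwa [show 2 * (c + 1) = 2 * c + 2 by ring] at this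
    have hme2 : 0 ≤ ∫ x, Z x ^ (2 * c + 4) ∂μ := by
      have := hme (c + 2)
      rwa [show 2 * (c + 2) = 2 * c + 4 by ring] at this
    set K : ℝ := (A₀.card : ℝ) with hK
    have hK0 : 0 ≤ K := by positivity
    set m2 := ∫ x, Z x ^ 2 ∂μ with hm2
    set D : ℝ := 4 ^ (c + 2) * (C' * (K * ∫ x, Z x ^ (2 * c + 2) ∂μ + (K * m2) ^ (c + 1)) * m2 +
      ∫ x, Z x ^ (2 * c + 4) ∂μ) with hD
    have key : ∀ A : Finset (Fin N), A ⊆ A₀ → ∫ X : Fin N → Ω,
        (∑ i ∈ A, Z (X i)) ^ (2 * (c + 1) + 2) ∂(Measure.pi fun _ : Fin N => μ) ≤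
        A.card * D := by
      intro A
      induction A using Finset.induction_on with
      | empty => simp
      | insert a A ha ih2 =>
        intro hsub
        have hA : A ⊆ A₀ := (Finset.subset_insert a A).trans hsub
        refine (ros_step μ hZ hM h0 (c + 1) A a ha).trans ?_
        rw [Finset.card_insert_of_notMem ha]
        have h1 := ih2 hA
        have h2 := ih Ω μ Z hZ M hM h0 N A
        have h3 : (A.card : ℝ) ≤ K := by
          rw [hK]
          exact_mod_cast Finset.card_le_card hA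
        have h4 : ∫ X : Fin N → Ω, (∑ i ∈ A, Z (X i)) ^ (2 * (c + 1))
            ∂(Measure.pi fun _ : Fin N => μ) ≤
            C' * (K * ∫ x, Z x ^ (2 * c + 2) ∂μ + (K * m2) ^ (c + 1)) := by
          rw [show 2 * (c + 1) = 2 * c + 2 by ring]
          refine h2.trans ?_
          gcongr
        rw [show 2 * (c + 1) + 2 = 2 * c + 4 by ring, show c + 1 + 1 = c + 2 by ring] at *
        push_cast
        rw [add_mul, one_mul]
        apply add_le_add h1
        rw [hD]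
        gcongr
    refine (key A₀ le_rfl).trans ?_
    have hmid := mid_moment μ hZ hM c hK0
    rw [← hm2] at hmid
    rw [show 2 * (c + 1) + 2 = 2 * c + 4 by ring, show c + 1 + 1 = c + 2 by ring, ← hK]
    have e1 : K * D = 4 ^ (c + 2) * (C' * (K ^ 2 * m2 * ∫ x, Z x ^ (2 * c + 2) ∂μ) +
        C' * (K * m2) ^ (c + 2) + K * ∫ x, Z x ^ (2 * c + 4) ∂μ) := by
      rw [hD]; ring
    rw [e1]
    have e2 : 4 ^ (c + 2) * (2 * C' + 1) *
        (K * ∫ x, Z x ^ (2 * c + 4) ∂μ + (K * m2) ^ (c + 2)) =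
        4 ^ (c + 2) * ((2 * C' + 1) *
        (K * ∫ x, Z x ^ (2 * c + 4) ∂μ + (K * m2) ^ (c + 2))) := by ring
    rw [e2]
    apply mul_le_mul_of_nonneg_left _ (by positivity)
    have h5 : 0 ≤ K * ∫ x, Z x ^ (2 * c + 4) ∂μ := by positivity
    have h6 : 0 ≤ (K * m2) ^ (c + 2) := by positivity
    have h7 : C' * (K ^ 2 * m2 * ∫ x, Z x ^ (2 * c + 2) ∂μ) ≤
        C' * ((K * m2) ^ (c + 2) + K * ∫ x, Z x ^ (2 * c + 4) ∂μ) := by gcongr
    nlinarith

theorem rosenthal (b : ℕ) (hb : 1 ≤ b) : ∃ C > 0, ∀ (Ω : Type) [MeasurableSpace Ω]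
    (μ : Measure Ω) [IsProbabilityMeasure μ] (Z : Ω → ℝ), Measurable Z →
    ∀ M : ℝ, (∀ x, |Z x| ≤ M) → ∫ x, Z x ∂μ = 0 → ∀ N : ℕ,
      ∫ X : Fin N → Ω, (∑ i, Z (X i)) ^ (2 * b) ∂(Measure.pi fun _ : Fin N => μ) ≤
        C * (N * ∫ x, Z x ^ (2 * b) ∂μ + (N * ∫ x, Z x ^ 2 ∂μ) ^ b) := by
  obtain ⟨c, rfl⟩ : ∃ c, b = c + 1 := ⟨b - 1, by omega⟩
  obtain ⟨C, hC, h⟩ := rosenthal_set c
  refine ⟨C, hC, ?_⟩
  intro Ω _ μ _ Z hZ M hM h0 N
  have := h Ω μ Z hZ M hM h0 N univ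
  rw [card_univ, Fintype.card_fin] at this
  exact this

end Pool.Agent.Helper64.SB
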