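import Pool.Agent.Helper64.SB.Upd

/-!
MP_7fc85e_an, stage 3A: the location theorem.
-/

open Finset MeasureTheory
open scoped ENNReal Real

namespace Pool.Agent.Helper64.SB

lemma exp_quad (t : ℝ) : Real.exp t ≤ 1 + t + t ^ 2 / 2 * Real.exp |t| := by
  rcases le_total 0 t with h | h
  · rw [abs_of_nonneg h]
    have hd : ∀ x : ℝ, HasDerivAt (fun x : ℝ => 1 + x + x ^ 2 / 2 * Real.exp x - Real.exp x)
        (1 + (x * Real.exp x + x ^ 2 / 2 * Real.exp x) - Real.exp x) x := by
      intro x
      have h1 : HasDerivAt (fun x : ℝ => x ^ 2 / 2) x x := by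
        have := (hasDerivAt_pow 2 x).div_const 2
        refine this.congr_deriv ?_
        norm_num
      have h2 := (((hasDerivAt_id x).const_add 1).add (h1.mul (Real.hasDerivAt_exp x))).sub
        (Real.hasDerivAt_exp x)
      exact h2
    have hmono : MonotoneOn (fun x : ℝ => 1 + x + x ^ 2 / 2 * Real.exp x - Real.exp x)
        (Set.Ici 0) := by
      apply monotoneOn_of_deriv_nonneg (convex_Ici 0)
      · exact fun x _ => (hd x).continuousAt.continuousWithinAt
      · exact fun x _ => (hd x).differentiableAt.differentiableWithinAt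
      · intro x hx
        rw [interior_Ici, Set.mem_Ioi] at hx
        rw [(hd x).deriv]
        have h3 := Real.add_one_le_exp (-x)
        have h4 : Real.exp x * Real.exp (-x) = 1 := by rw [← Real.exp_add]; simp
        have h5 := Real.exp_pos x
        have h6 : Real.exp x * (-x + 1) ≤ 1 := by
          calc Real.exp x * (-x + 1) ≤ Real.exp x * Real.exp (-x) := by gcongr
            _ = 1 := h4
        have h7 : 0 ≤ x ^ 2 / 2 * Real.exp x := by positivity
        nlinarith
    have := hmono (Set.mem_Ici.2 le_rfl) (Set.mem_Ici.2 h) h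
    simp only [Real.exp_zero] at this
    linarith
  · have h1 := Real.quadratic_le_exp_of_nonneg (x := -t) (by linarith)
    have h2 : Real.exp t * Real.exp (-t) = 1 := by rw [← Real.exp_add]; simp
    have h3 := Real.exp_pos t
    have h5 : 0 < 1 + t + t ^ 2 / 2 := by nlinarith [sq_nonneg (t + 1)]
    have h6 : Real.exp t ≤ 1 + t + t ^ 2 / 2 := by
      by_contra hc
      push Not at hc
      have h7 : (1 + t + t ^ 2 / 2) * (1 + -t + (-t) ^ 2 / 2) < 1 := by
        calc (1 + t + t ^ 2 / 2) * (1 + -t + (-t) ^ 2 / 2) ≤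
              (1 + t + t ^ 2 / 2) * Real.exp (-t) := by gcongr
          _ < Real.exp t * Real.exp (-t) := by
              have := Real.exp_pos (-t)
              gcongr
          _ = 1 := h2
      nlinarith [sq_nonneg (t ^ 2)]
    have h8 : 1 ≤ Real.exp |t| := Real.one_le_exp (abs_nonneg t)
    have h9 : t ^ 2 / 2 ≤ t ^ 2 / 2 * Real.exp |t| := by
      have : 0 ≤ t ^ 2 / 2 := by positivity
      nlinarith
    linarith

section

variable {Ω : Type} [MeasurableSpace Ω] (μ : Measure Ω) [IsProbabilityMeasure μ] {N : ℕ}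
  {k : Ω → Ω → ℝ}

/-- the off-diagonal second moment -/
lemma offdiag_moment (hm : Measurable fun z : Ω × Ω => k z.1 z.2) {M : ℝ}
    (hM : ∀ x y, |k x y| ≤ M) (hsym : ∀ x y, k x y = k y x) (h1 : ∀ x, ∫ y, k x y ∂μ = 0) :
    ∫ X, (∑ a ∈ (univ : Finset (Fin N)).offDiag, k (X a.1) (X a.2)) ^ 2
      ∂(Measure.pi fun _ : Fin N => μ) ≤ 2 * N ^ 2 * ∫ z, k z.1 z.2 ^ 2 ∂(μ.prod μ) := by
  set V := ∫ z, k z.1 z.2 ^ 2 ∂(μ.prod μ) with hV
  have hV0 : 0 ≤ V := integral_nonneg fun z => by positivity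
  have hmi : ∀ i j : Fin N, Measurable fun Y : Fin N → Ω => k (Y i) (Y j) := by
    intro i j
    have hp : Measurable fun Y : Fin N → Ω => (Y i, Y j) :=
      (measurable_pi_apply i).prodMk (measurable_pi_apply j)
    exact hm.comp hp
  have hmm : ∀ a b : Fin N × Fin N, Measurable fun Y : Fin N → Ω =>
      k (Y a.1) (Y a.2) * k (Y b.1) (Y b.2) := fun a b => (hmi _ _).mul (hmi _ _)
  have hC0 : ∀ a b : Fin N × Fin N, ∀ Y : Fin N → Ω,
      |k (Y a.1) (Y a.2) * k (Y b.1) (Y b.2)| ≤ M * M := by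
    intro a b Y
    rw [abs_mul]
    exact mul_le_mul (hM _ _) (hM _ _) (abs_nonneg _) ((abs_nonneg _).trans (hM (Y a.1) (Y a.2)))
  have h1' : ∀ y, ∫ x, k x y ∂μ = 0 := by
    intro y
    rw [← h1 y]
    exact integral_congr_ae (ae_of_all _ fun x => hsym x y)
  have hsq : ∀ i j : Fin N, i ≠ j →
      ∫ Y, k (Y i) (Y j) ^ 2 ∂(Measure.pi fun _ : Fin N => μ) = V := by
    intro i j hij
    have e1 := integral_update μ i (F := fun Y => k (Y i) (Y j) ^ 2) ((hmi i j).pow_const 2)
      (C := M ^ 2) (fun Y => by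
        rw [abs_pow]; exact pow_le_pow_left₀ (abs_nonneg _) (hM _ _) 2)
    simp only [Function.update_self, Function.update_of_ne hij.symm] at e1
    have hms : Measurable fun z : Ω × Ω => k z.1 z.2 ^ 2 := hm.pow_const 2
    have hG : Measurable fun y => ∫ t, k t y ^ 2 ∂μ := by
      have := (hms.comp measurable_swap).stronglyMeasurable.integral_prod_right' (ν := μ)
      exact this.measurable
    have hGb : ∀ y, |∫ t, k t y ^ 2 ∂μ| ≤ M ^ 2 := by
      intro y
      have := norm_integral_le_of_norm_le_const (μ := μ) (f := fun t => k t y ^ 2) (C := M ^ 2)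
        (ae_of_all _ fun t => by
          rw [Real.norm_eq_abs, abs_pow]
          exact pow_le_pow_left₀ (abs_nonneg _) (hM _ _) 2)
      simpa using this
    rw [e1, integral_coord μ j hG hGb, hV, integral_prod_symm _ (intb hms (C := M ^ 2) fun z => by
      rw [abs_pow]; exact pow_le_pow_left₀ (abs_nonneg _) (hM _ _) 2)]
  have key : ∀ a ∈ (univ : Finset (Fin N)).offDiag, ∀ b ∈ (univ : Finset (Fin N)).offDiag,
      ∫ X, k (X a.1) (X a.2) * k (X b.1) (X b.2) ∂(Measure.pi fun _ : Fin N => μ) ≤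
        (if b = a then V else 0) + (if b = a.swap then V else 0) := by
    rintro ⟨i, j⟩ ha ⟨p, q⟩ hb
    simp only [mem_offDiag, mem_univ, true_and] at ha hb
    by_cases hb1 : (p, q) = (i, j)
    · rw [if_pos hb1]
      have : (0 : ℝ) ≤ (if (p, q) = (i, j).swap then V else 0) := by split_ifs <;> simp [hV0]
      have e := hsq i j ha
      obtain ⟨rfl, rfl⟩ := Prod.ext_iff.1 hb1
      simp only [← pow_two]
      simp only at e
      rw [e]
      linarith
    · by_cases hb2 : (p, q) = (i, j).swap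
      · rw [if_neg hb1, if_pos hb2]
        have e := hsq i j ha
        obtain ⟨h3, h4⟩ := Prod.ext_iff.1 hb2
        simp only [Prod.fst_swap, Prod.snd_swap] at h3 h4
        subst h3 h4
        have e2 : ∀ X : Fin N → Ω, k (X q) (X p) * k (X p) (X q) = k (X q) (X p) ^ 2 := by
          intro X
          rw [hsym (X p) (X q), pow_two]
        simp only [e2]
        rw [e]
        linarith
      · rw [if_neg hb1, if_neg hb2]
        apply le_of_eq
        rw [add_zero]
        have hcase : (i ≠ p ∧ i ≠ q) ∨ (j ≠ p ∧ j ≠ q) := by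
          by_contra hc
          push Not at hc
          obtain ⟨hc1, hc2⟩ := hc
          by_cases e1 : i = p
          · by_cases e2 : j = p
            · exact ha (e1.trans e2.symm)
            · exact hb1 (by rw [e1, hc2 e2])
          · have e3 := hc1 e1
            by_cases e2 : j = p
            · exact hb2 (by rw [e2, e3]; rfl)
            · exact ha (e3.trans (hc2 e2).symm)
        rcases hcase with ⟨c1, c2⟩ | ⟨c1, c2⟩
        · apply integral_zero_update μ i (hmm (i, j) (p, q)) (fun Y => hC0 (i, j) (p, q) Y)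
          intro Y
          simp only [Function.update_self, Function.update_of_ne (Ne.symm c1),
            Function.update_of_ne (Ne.symm c2), Function.update_of_ne (Ne.symm ha)]
          rw [integral_mul_const, h1', zero_mul]
        · apply integral_zero_update μ j (hmm (i, j) (p, q)) (fun Y => hC0 (i, j) (p, q) Y)
          intro Y
          simp only [Function.update_self, Function.update_of_ne (Ne.symm c1),
            Function.update_of_ne (Ne.symm c2), Function.update_of_ne ha]
          rw [integral_mul_const, h1, zero_mul]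
  have h2 : ∀ X : Fin N → Ω, (∑ a ∈ (univ : Finset (Fin N)).offDiag, k (X a.1) (X a.2)) ^ 2 =
      ∑ a ∈ (univ : Finset (Fin N)).offDiag, ∑ b ∈ (univ : Finset (Fin N)).offDiag,
        k (X a.1) (X a.2) * k (X b.1) (X b.2) := by
    intro X
    rw [pow_two, Finset.sum_mul_sum]
  simp only [h2]
  rw [integral_finsetSum _ fun a _ => integrable_finsetSum _ fun b _ =>
    intb (hmm a b) fun Y => hC0 a b Y]
  have h3 : ∀ a ∈ (univ : Finset (Fin N)).offDiag, ∫ X, ∑ b ∈ (univ : Finset (Fin N)).offDiag,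
      k (X a.1) (X a.2) * k (X b.1) (X b.2) ∂(Measure.pi fun _ : Fin N => μ) ≤ 2 * V := by
    intro a ha
    rw [integral_finsetSum _ fun b _ => intb (hmm a b) fun Y => hC0 a b Y]
    calc _ ≤ ∑ b ∈ (univ : Finset (Fin N)).offDiag,
          ((if b = a then V else 0) + (if b = a.swap then V else 0)) :=
          Finset.sum_le_sum fun b hb => key a ha b hb
      _ ≤ ∑ b : Fin N × Fin N, ((if b = a then V else 0) + (if b = a.swap then V else 0)) := by
          apply Finset.sum_le_sum_of_subset_of_nonneg (Finset.subset_univ _)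
          intro b _ _
          split_ifs <;> simp [hV0]
      _ = 2 * V := by
          rw [Finset.sum_add_distrib]
          simp
          ring
  calc _ ≤ ∑ a ∈ (univ : Finset (Fin N)).offDiag, 2 * V := Finset.sum_le_sum h3
    _ = ((univ : Finset (Fin N)).offDiag.card : ℝ) * (2 * V) := by
        rw [Finset.sum_const, nsmul_eq_mul]
    _ ≤ (N ^ 2 : ℝ) * (2 * V) := by
        gcongr
        rw [Finset.offDiag_card]
        simp only [card_univ, Fintype.card_fin]
        have : N * N - N ≤ N ^ 2 := by rw [pow_two]; exact Nat.sub_le _ _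
        exact_mod_cast this
    _ = _ := by ring

/-- exponential moment of the kernel for one point -/
lemma exp_moment_one (hm : Measurable fun z : Ω × Ω => k z.1 z.2) {M : ℝ}
    (hM : ∀ x y, |k x y| ≤ M) (h1 : ∀ x, ∫ y, k x y ∂μ = 0) {lam : ℝ} (hlam : 0 < lam)
    (hN : 0 < N)
    (h4 : ∀ x, N * ∫ y, k x y ^ 2 * Real.exp (lam * |k x y|) ∂μ ≤ 1 / (4 * lam)) (x : Ω) :
    ∫ y, Real.exp (lam * k x y) ∂μ ≤ 1 + lam / (8 * N) := by
  have hmx : Measurable fun y => k x y := hm.comp measurable_prodMk_left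
  have hNr : (0 : ℝ) < N := by exact_mod_cast hN
  have i1 : Integrable (fun y => Real.exp (lam * k x y)) μ := by
    have hme : Measurable fun y => Real.exp (lam * k x y) :=
      Real.measurable_exp.comp (hmx.const_mul lam)
    apply intb (C := Real.exp (lam * M)) hme
    intro y
    rw [abs_of_pos (Real.exp_pos _)]
    apply Real.exp_le_exp.2
    have := (le_abs_self (k x y)).trans (hM x y)
    gcongr
  have i2 : Integrable (fun y => k x y) μ := intb hmx (hM x)
  have hb : ∀ y, |k x y ^ 2 * Real.exp (lam * |k x y|)| ≤ M ^ 2 * Real.exp (lam * M) := by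
    intro y
    have hMy := hM x y
    rw [abs_mul, abs_pow, abs_of_pos (Real.exp_pos _)]
    gcongr
  have i3 : Integrable (fun y => k x y ^ 2 * Real.exp (lam * |k x y|)) μ :=
    intb ((hmx.pow_const 2).mul (Real.measurable_exp.comp
      ((measurable_norm.comp hmx).const_mul lam))) hb
  have j1 : Integrable (fun y => 1 + lam * k x y) μ := (integrable_const _).add (i2.const_mul _)
  have j2 : Integrable (fun y => lam * k x y) μ := i2.const_mul _
  have j3 : Integrable (fun y => lam ^ 2 / 2 * (k x y ^ 2 * Real.exp (lam * |k x y|))) μ :=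
    i3.const_mul _
  have hpt : ∀ y, Real.exp (lam * k x y) ≤
      1 + lam * k x y + lam ^ 2 / 2 * (k x y ^ 2 * Real.exp (lam * |k x y|)) := by
    intro y
    have := exp_quad (lam * k x y)
    rw [abs_mul, abs_of_pos hlam] at this
    calc _ ≤ _ := this
      _ = _ := by ring
  calc ∫ y, Real.exp (lam * k x y) ∂μ ≤
        ∫ y, (1 + lam * k x y + lam ^ 2 / 2 * (k x y ^ 2 * Real.exp (lam * |k x y|))) ∂μ := by
          apply integral_mono i1 _ hpt
          exact j1.add j3
    _ = 1 + lam ^ 2 / 2 * ∫ y, k x y ^ 2 * Real.exp (lam * |k x y|) ∂μ := by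
          rw [integral_add j1 j3, integral_add (integrable_const _) j2, integral_const_mul,
            integral_const_mul, h1]
          simp
    _ ≤ 1 + lam / (8 * N) := by
          have h5 := h4 x
          have h6 : ∫ y, k x y ^ 2 * Real.exp (lam * |k x y|) ∂μ ≤ 1 / (4 * lam) / N := by
            rw [le_div_iff₀ hNr, mul_comm]
            exact h5
          have h7 : lam ^ 2 / 2 * (1 / (4 * lam) / N) = lam / (8 * N) := by
            field_simp
            ring
          rw [← h7]
          gcongr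

/-- exponential moment of the sum, averaged over both arguments -/
lemma exp_moment (hm : Measurable fun z : Ω × Ω => k z.1 z.2) {M : ℝ}
    (hM : ∀ x y, |k x y| ≤ M) (h1 : ∀ x, ∫ y, k x y ∂μ = 0) {lam : ℝ} (hlam : 0 < lam)
    (hN : 0 < N)
    (h4 : ∀ x, N * ∫ y, k x y ^ 2 * Real.exp (lam * |k x y|) ∂μ ≤ 1 / (4 * lam)) :
    (Measurable fun Y : Fin N → Ω => ∫ x, Real.exp (lam * ∑ j, k x (Y j)) ∂μ) ∧
    (∀ Y : Fin N → Ω, |∫ x, Real.exp (lam * ∑ j, k x (Y j)) ∂μ| ≤ Real.exp (lam * (N * M))) ∧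
    ∫ Y, ∫ x, Real.exp (lam * ∑ j, k x (Y j)) ∂μ ∂(Measure.pi fun _ : Fin N => μ) ≤
      Real.exp (lam / 8) := by
  have hNr : (0 : ℝ) < N := by exact_mod_cast hN
  have hmj : Measurable fun p : (Fin N → Ω) × Ω => Real.exp (lam * ∑ j, k p.2 (p.1 j)) := by
    apply Real.measurable_exp.comp
    apply Measurable.const_mul
    apply Finset.measurable_sum
    intro j _
    have hp : Measurable fun p : (Fin N → Ω) × Ω => (p.2, p.1 j) :=
      measurable_snd.prodMk ((measurable_pi_apply j).comp measurable_fst)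
    exact hm.comp hp
  have hsum : ∀ (x : Ω) (Y : Fin N → Ω), ∑ j, k x (Y j) ≤ N * M := by
    intro x Y
    calc ∑ j, k x (Y j) ≤ ∑ _j : Fin N, M :=
          Finset.sum_le_sum fun j _ => (le_abs_self _).trans (hM x (Y j))
      _ = N * M := by simp
  have hbd : ∀ p : (Fin N → Ω) × Ω, |Real.exp (lam * ∑ j, k p.2 (p.1 j))| ≤
      Real.exp (lam * (N * M)) := by
    intro p
    rw [abs_of_pos (Real.exp_pos _)]
    apply Real.exp_le_exp.2
    have := hsum p.2 p.1
    gcongr
  refine ⟨hmj.stronglyMeasurable.integral_prod_right'.measurable, ?_, ?_⟩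
  · intro Y
    have := norm_integral_le_of_norm_le_const (μ := μ)
      (f := fun x => Real.exp (lam * ∑ j, k x (Y j))) (C := Real.exp (lam * (N * M)))
      (ae_of_all _ fun x => hbd (Y, x))
    simpa using this
  · rw [integral_integral_swap (f := fun (Y : Fin N → Ω) x => Real.exp (lam * ∑ j, k x (Y j)))
      (intb hmj hbd)]
    have e1 : ∀ x : Ω, ∫ Y : Fin N → Ω, Real.exp (lam * ∑ j, k x (Y j))
        ∂(Measure.pi fun _ : Fin N => μ) = (∫ y, Real.exp (lam * k x y) ∂μ) ^ N := by
      intro x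
      have e2 : ∀ Y : Fin N → Ω, Real.exp (lam * ∑ j, k x (Y j)) =
          ∏ j, Real.exp (lam * k x (Y j)) := by
        intro Y
        rw [Finset.mul_sum, Real.exp_sum]
      simp only [e2]
      have := integral_fintype_prod_eq_pow (ι := Fin N) (μ := μ) (fun y => Real.exp (lam * k x y))
      simpa using this
    simp only [e1]
    have e3 : ∀ x, (∫ y, Real.exp (lam * k x y) ∂μ) ^ N ≤ Real.exp (lam / 8) := by
      intro x
      have h5 := exp_moment_one μ hm hM h1 hlam hN h4 x
      have h6 : 0 ≤ ∫ y, Real.exp (lam * k x y) ∂μ :=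
        integral_nonneg fun y => (Real.exp_pos _).le
      calc _ ≤ (1 + lam / (8 * N)) ^ N := by gcongr
        _ ≤ (Real.exp (lam / (8 * N))) ^ N := by
            gcongr
            have := Real.add_one_le_exp (lam / (8 * N))
            linarith
        _ = Real.exp (lam / 8) := by
            rw [← Real.exp_nat_mul]
            congr 1
            field_simp
    calc ∫ x, (∫ y, Real.exp (lam * k x y) ∂μ) ^ N ∂μ ≤ ∫ _x, Real.exp (lam / 8) ∂μ := by
          apply integral_mono_of_nonneg (ae_of_all _ fun x => by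
            have h6 : 0 ≤ ∫ y, Real.exp (lam * k x y) ∂μ :=
              integral_nonneg fun y => (Real.exp_pos _).le
            positivity) (integrable_const _) (ae_of_all _ e3)
      _ = Real.exp (lam / 8) := by simp

theorem location_one (hm : Measurable fun z : Ω × Ω => k z.1 z.2) {M : ℝ}
    (hM : ∀ x y, |k x y| ≤ M) (hsym : ∀ x y, k x y = k y x) (h1 : ∀ x, ∫ y, k x y ∂μ = 0)
    {B δ lam : ℝ} (hδ : 0 < δ) (hN : 0 < N) (h2 : ∫ x, k x x ∂μ = 1) (hB : ∀ x, |k x x| ≤ B)
    (h3 : ∫ z, k z.1 z.2 ^ 2 ∂(μ.prod μ) ≤ δ ^ 2 / 100)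
    (h4 : ∀ x, N * ∫ y, k x y ^ 2 * Real.exp (lam * |k x y|) ∂μ ≤ 1 / (4 * lam))
    (h5 : 100 * B ^ 2 / δ ^ 2 ≤ N) (h6 : 8 ≤ lam) :
    ∃ 𝒯 : Set (Fin N → Ω), MeasurableSet 𝒯 ∧ 2 / 3 ≤ (Measure.pi fun _ : Fin N => μ).real 𝒯 ∧
      (∀ X ∈ 𝒯, |∑ i, ∑ j, k (X i) (X j) - N| ≤ δ * N) ∧
      ∀ Y ∈ 𝒯, (Measure.pi fun _ : Fin N => μ).real
        {X | (N : ℝ) / 2 ≤ ∑ i, ∑ j, k (X i) (Y j)} ≤ Real.exp (-(lam * N / 8)) := by
  have hNr : (0 : ℝ) < N := by exact_mod_cast hN
  have hlam : 0 < lam := by linarith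
  set ν := Measure.pi fun _ : Fin N => μ with hν
  obtain ⟨hHm, hHb, hHi⟩ := exp_moment μ (N := N) hm hM h1 hlam hN h4
  set H : (Fin N → Ω) → ℝ := fun Y => ∫ x, Real.exp (lam * ∑ j, k x (Y j)) ∂μ with hH
  have hmd : Measurable fun x => k x x := by
    have hp : Measurable fun x : Ω => (x, x) := measurable_id.prodMk measurable_id
    exact hm.comp hp
  have hM0 : 0 ≤ M := by
    have := μ.nonempty_of_neZero
    obtain ⟨x⟩ : Nonempty Ω := inferInstance
    exact (abs_nonneg _).trans (hM x x)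
  set f : Ω → ℝ := fun x => k x x - 1 with hf
  have hfm : Measurable f := hmd.sub_const 1
  have hfb : ∀ x, |f x| ≤ M + 1 := by
    intro x
    have := hM x x
    rw [hf]
    simp only
    rw [abs_le] at this ⊢
    constructor <;> linarith
  have hf0 : ∫ x, f x ∂μ = 0 := by
    rw [hf, integral_sub (intb hmd fun x => hM x x) (integrable_const _), h2]
    simp
  have hf2 : ∫ x, f x ^ 2 ∂μ ≤ B ^ 2 := by
    have e1 : ∀ x, f x ^ 2 = k x x ^ 2 - 2 * k x x + 1 := by intro x; rw [hf]; ring
    simp only [e1]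
    have i1 : Integrable (fun x => k x x ^ 2) μ := intb (hmd.pow_const 2) (C := M ^ 2) fun x => by
      rw [abs_pow]; exact pow_le_pow_left₀ (abs_nonneg _) (hM x x) 2
    have i2 : Integrable (fun x => 2 * k x x) μ := (intb hmd fun x => hM x x).const_mul 2
    have i3 : Integrable (fun x => k x x ^ 2 - 2 * k x x) μ := i1.sub i2
    rw [integral_add i3 (integrable_const _), integral_sub i1 i2, integral_const_mul, h2]
    have h7 : ∫ x, k x x ^ 2 ∂μ ≤ ∫ _x, B ^ 2 ∂μ := by
      apply integral_mono i1 (integrable_const _)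
      intro x
      simp only
      rw [← sq_abs (k x x)]
      exact pow_le_pow_left₀ (abs_nonneg _) (hB x) 2
    simp only [integral_const, probReal_univ, one_smul] at h7 ⊢
    linarith
  -- the diagonal part
  have hDm : Measurable fun X : Fin N → Ω => ∑ i, f (X i) := by
    apply Finset.measurable_sum
    intro i _
    exact hfm.comp (measurable_pi_apply i)
  have hDb : ∀ X : Fin N → Ω, |∑ i, f (X i)| ≤ N * (M + 1) := by
    intro X
    calc |∑ i, f (X i)| ≤ ∑ i, |f (X i)| := Finset.abs_sum_le_sum_abs _ _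
      _ ≤ ∑ _i : Fin N, (M + 1) := Finset.sum_le_sum fun i _ => hfb _
      _ = N * (M + 1) := by rw [Finset.sum_const, card_univ, Fintype.card_fin, nsmul_eq_mul]
  have pD : ν.real {X : Fin N → Ω | δ * N / 2 < |∑ i, f (X i)|} ≤ 4 / 100 := by
    refine (cheb hDm hDb (by positivity)).trans ?_
    rw [second_moment μ hfm hfb hf0]
    rw [div_le_div_iff₀ (by positivity) (by norm_num)]
    have h8 : 100 * B ^ 2 ≤ N * δ ^ 2 := by
      rw [div_le_iff₀ (by positivity)] at h5
      exact h5
    have h9 : (N : ℝ) * (∫ x, f x ^ 2 ∂μ) * 100 ≤ N * B ^ 2 * 100 := by gcongr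
    nlinarith
  -- the off-diagonal part
  have hmi : ∀ i j : Fin N, Measurable fun Y : Fin N → Ω => k (Y i) (Y j) := by
    intro i j
    have hp : Measurable fun Y : Fin N → Ω => (Y i, Y j) :=
      (measurable_pi_apply i).prodMk (measurable_pi_apply j)
    exact hm.comp hp
  have hOm : Measurable fun X : Fin N → Ω =>
      ∑ a ∈ (univ : Finset (Fin N)).offDiag, k (X a.1) (X a.2) :=
    Finset.measurable_sum _ fun a _ => hmi a.1 a.2
  have hOb : ∀ X : Fin N → Ω, |∑ a ∈ (univ : Finset (Fin N)).offDiag, k (X a.1) (X a.2)| ≤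
      (univ : Finset (Fin N)).offDiag.card * M := by
    intro X
    calc _ ≤ ∑ a ∈ (univ : Finset (Fin N)).offDiag, |k (X a.1) (X a.2)| :=
          Finset.abs_sum_le_sum_abs _ _
      _ ≤ ∑ _a ∈ (univ : Finset (Fin N)).offDiag, M := Finset.sum_le_sum fun a _ => hM _ _
      _ = _ := by rw [Finset.sum_const, nsmul_eq_mul]
  have pO : ν.real {X : Fin N → Ω | δ * N / 2 <
      |∑ a ∈ (univ : Finset (Fin N)).offDiag, k (X a.1) (X a.2)|} ≤ 8 / 100 := by
    refine (cheb hOm hOb (by positivity)).trans ?_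
    rw [div_le_iff₀ (by positivity)]
    refine (offdiag_moment μ hm hM hsym h1).trans ?_
    calc _ ≤ 2 * (N : ℝ) ^ 2 * (δ ^ 2 / 100) := by gcongr
      _ = _ := by ring
  -- the exponential condition
  have pH : ν.real {Y : Fin N → Ω | Real.exp (3 * lam / 8) ≤ H Y} ≤ 21 / 100 := by
    have h7 := mul_meas_ge_le_integral_of_nonneg (μ := ν) (f := H)
      (ae_of_all _ fun Y => integral_nonneg fun x => (Real.exp_pos _).le)
      (intb hHm hHb) (Real.exp (3 * lam / 8))
    have h8 := h7.trans hHi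
    have h9 : Real.exp (3 * lam / 8) = Real.exp (lam / 4) * Real.exp (lam / 8) := by
      rw [← Real.exp_add]; congr 1; ring
    rw [h9] at h8
    have h10 : Real.exp (lam / 4) * ν.real {Y : Fin N → Ω |
        Real.exp (lam / 4) * Real.exp (lam / 8) ≤ H Y} ≤ 1 := by
      have := Real.exp_pos (lam / 8)
      nlinarith
    rw [← h9] at h10
    have h11 : (5 : ℝ) ≤ Real.exp (lam / 4) := by
      have e1 : Real.exp 2 ≤ Real.exp (lam / 4) := Real.exp_le_exp.2 (by linarith)
      have e2 : Real.exp 2 = Real.exp 1 * Real.exp 1 := by rw [← Real.exp_add]; norm_num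
      have e3 := Real.exp_one_gt_d9
      nlinarith
    have h12 : 0 ≤ ν.real {Y : Fin N → Ω | Real.exp (3 * lam / 8) ≤ H Y} := measureReal_nonneg
    nlinarith
  refine ⟨{Y | Real.exp (3 * lam / 8) ≤ H Y}ᶜ ∩ ({X | δ * N / 2 < |∑ i, f (X i)|}ᶜ ∩
    {X | δ * N / 2 < |∑ a ∈ (univ : Finset (Fin N)).offDiag, k (X a.1) (X a.2)|}ᶜ), ?_, ?_, ?_, ?_⟩
  · exact (measurableSet_le measurable_const hHm).compl.inter
      ((measurableSet_lt measurable_const (measurable_norm.comp hDm)).compl.inter
        (measurableSet_lt measurable_const (measurable_norm.comp hOm)).compl)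
  · rw [← Set.compl_union, ← Set.compl_union]
    have hms : MeasurableSet ({Y | Real.exp (3 * lam / 8) ≤ H Y} ∪ ({X | δ * N / 2 <
        |∑ i, f (X i)|} ∪ {X | δ * N / 2 <
          |∑ a ∈ (univ : Finset (Fin N)).offDiag, k (X a.1) (X a.2)|})) :=
      (measurableSet_le measurable_const hHm).union
      ((measurableSet_lt measurable_const (measurable_norm.comp hDm)).union
        (measurableSet_lt measurable_const (measurable_norm.comp hOm)))
    rw [probReal_compl_eq_one_sub hms]
    have u1 := measureReal_union_le (μ := ν) {Y : Fin N → Ω | Real.exp (3 * lam / 8) ≤ H Y}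
      ({X | δ * N / 2 < |∑ i, f (X i)|} ∪ {X | δ * N / 2 <
        |∑ a ∈ (univ : Finset (Fin N)).offDiag, k (X a.1) (X a.2)|})
    have u2 := measureReal_union_le (μ := ν) {X : Fin N → Ω | δ * N / 2 < |∑ i, f (X i)|}
      {X | δ * N / 2 < |∑ a ∈ (univ : Finset (Fin N)).offDiag, k (X a.1) (X a.2)|}
    linarith
  · rintro X ⟨-, hX1, hX2⟩
    simp only [Set.mem_compl_iff, Set.mem_ofPred_eq, not_lt] at hX1 hX2
    have e1 : ∑ i, ∑ j, k (X i) (X j) = ∑ i, k (X i) (X i) +
        ∑ a ∈ (univ : Finset (Fin N)).offDiag, k (X a.1) (X a.2) := by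
      rw [← Finset.sum_diag univ (fun a : Fin N × Fin N => k (X a.1) (X a.2)),
        ← Finset.sum_union (Finset.disjoint_diag_offDiag _), Finset.diag_union_offDiag,
        Finset.sum_product]
    have e2 : ∑ i, k (X i) (X i) = ∑ i, f (X i) + N := by
      rw [hf]
      simp
    rw [e1, e2]
    have e3 : ∑ i, f (X i) + N + ∑ a ∈ (univ : Finset (Fin N)).offDiag, k (X a.1) (X a.2) - N =
        ∑ i, f (X i) + ∑ a ∈ (univ : Finset (Fin N)).offDiag, k (X a.1) (X a.2) := by ring
    rw [e3]
    refine (abs_add_le _ _).trans ?_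
    linarith
  · rintro Y ⟨hY, -⟩
    simp only [Set.mem_compl_iff, Set.mem_ofPred_eq, not_le] at hY
    have hg : Measurable fun x => ∑ j, k x (Y j) := by
      apply Finset.measurable_sum
      intro j _
      have hp : Measurable fun x : Ω => (x, Y j) := measurable_id.prodMk measurable_const
      exact hm.comp hp
    have hsum : ∀ x : Ω, ∑ j, k x (Y j) ≤ N * M := by
      intro x
      calc ∑ j, k x (Y j) ≤ ∑ _j : Fin N, M :=
            Finset.sum_le_sum fun j _ => (le_abs_self _).trans (hM x (Y j))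
        _ = N * M := by simp
    have hF : Measurable fun X : Fin N → Ω => Real.exp (lam * ∑ i, ∑ j, k (X i) (Y j)) := by
      apply Real.measurable_exp.comp
      apply Measurable.const_mul
      apply Finset.measurable_sum
      intro i _
      exact hg.comp (measurable_pi_apply i)
    have hFb : ∀ X : Fin N → Ω, |Real.exp (lam * ∑ i, ∑ j, k (X i) (Y j))| ≤
        Real.exp (lam * (N * (N * M))) := by
      intro X
      rw [abs_of_pos (Real.exp_pos _)]
      apply Real.exp_le_exp.2
      have : ∑ i, ∑ j, k (X i) (Y j) ≤ N * (N * M) := by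
        calc ∑ i, ∑ j, k (X i) (Y j) ≤ ∑ _i : Fin N, (N * M : ℝ) :=
              Finset.sum_le_sum fun i _ => hsum (X i)
          _ = N * (N * M) := by simp
      gcongr
    have h7 := mul_meas_ge_le_integral_of_nonneg (μ := ν)
      (f := fun X : Fin N → Ω => Real.exp (lam * ∑ i, ∑ j, k (X i) (Y j)))
      (ae_of_all _ fun X => (Real.exp_pos _).le) (intb hF hFb) (Real.exp (lam * (N / 2)))
    have e1 : ∫ X : Fin N → Ω, Real.exp (lam * ∑ i, ∑ j, k (X i) (Y j)) ∂ν = H Y ^ N := by
      have e2 : ∀ X : Fin N → Ω, Real.exp (lam * ∑ i, ∑ j, k (X i) (Y j)) =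
          ∏ i, Real.exp (lam * ∑ j, k (X i) (Y j)) := by
        intro X
        rw [Finset.mul_sum, Real.exp_sum]
      simp only [e2]
      have := integral_fintype_prod_eq_pow (ι := Fin N) (μ := μ)
        (fun x => Real.exp (lam * ∑ j, k x (Y j)))
      simpa using this
    rw [e1] at h7
    have h8 : H Y ^ N ≤ Real.exp (N * (3 * lam / 8)) := by
      rw [Real.exp_nat_mul]
      have : 0 ≤ H Y := integral_nonneg fun x => (Real.exp_pos _).le
      gcongr
    have h9 : {X : Fin N → Ω | Real.exp (lam * (N / 2)) ≤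
        Real.exp (lam * ∑ i, ∑ j, k (X i) (Y j))} =
        {X : Fin N → Ω | (N : ℝ) / 2 ≤ ∑ i, ∑ j, k (X i) (Y j)} := by
      ext X
      simp only [Set.mem_ofPred_eq, Real.exp_le_exp]
      exact mul_le_mul_iff_right₀ hlam
    rw [h9] at h7
    have h10 := h7.trans h8
    have h11 : Real.exp (-(lam * N / 8)) * Real.exp (lam * (N / 2)) =
        Real.exp (N * (3 * lam / 8)) := by
      rw [← Real.exp_add]; congr 1; ring
    rw [← h11, mul_comm] at h10
    exact le_of_mul_le_mul_right h10 (Real.exp_pos _)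

end

theorem location {Ω : Type} [MeasurableSpace Ω] (μ : Measure Ω) [IsProbabilityMeasure μ]
    (κ : Ω → Ω → ℝ) (hm : Measurable fun z : Ω × Ω => κ z.1 z.2) (M : ℝ)
    (hM : ∀ x y, |κ x y| ≤ M) (hsym : ∀ x y, κ x y = κ y x) (h1 : ∀ x, ∫ y, κ x y ∂μ = 0)
    (κ0 B δ lam : ℝ) (N : ℕ) (hκ0 : 0 < κ0) (hδ : 0 < δ) (hN : 0 < N)
    (h2 : ∫ x, κ x x ∂μ = κ0) (hB : ∀ x, |κ x x| ≤ B * κ0)
    (h3 : ∫ z, κ z.1 z.2 ^ 2 ∂(μ.prod μ) ≤ δ ^ 2 * κ0 ^ 2 / 100)
    (h4 : ∀ x, N * ∫ y, (κ x y / κ0) ^ 2 * Real.exp (lam * (|κ x y| / κ0)) ∂μ ≤ 1 / (4 * lam))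
    (h5 : 100 * B ^ 2 / δ ^ 2 ≤ N) (h6 : 8 ≤ lam) :
    ∃ 𝒯 : Set (Fin N → Ω), MeasurableSet 𝒯 ∧ 2 / 3 ≤ (Measure.pi fun _ : Fin N => μ).real 𝒯 ∧
      (∀ X ∈ 𝒯, |∑ i, ∑ j, κ (X i) (X j) - N * κ0| ≤ δ * N * κ0) ∧
      ∀ Y ∈ 𝒯, (Measure.pi fun _ : Fin N => μ).real
        {X | N * κ0 / 2 ≤ ∑ i, ∑ j, κ (X i) (Y j)} ≤ Real.exp (-(lam * N / 8)) := by
  have hs : ∀ (X Y : Fin N → Ω), ∑ i, ∑ j, κ (X i) (Y j) / κ0 =
      (∑ i, ∑ j, κ (X i) (Y j)) / κ0 := by
    intro X Y
    rw [Finset.sum_div]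
    exact Finset.sum_congr rfl fun i _ => by rw [Finset.sum_div]
  obtain ⟨T, hT1, hT2, hT3, hT4⟩ := location_one μ (N := N) (k := fun x y => κ x y / κ0)
    (hm.div_const κ0) (M := M / κ0) (fun x y => by
      rw [abs_div, abs_of_pos hκ0]
      exact div_le_div_of_nonneg_right (hM x y) hκ0.le)
    (fun x y => by simp only [hsym x y])
    (fun x => by rw [integral_div, h1, zero_div]) (B := B) (δ := δ) (lam := lam) hδ hN
    (by rw [integral_div, h2, div_self hκ0.ne'])
    (fun x => by
      rw [abs_div, abs_of_pos hκ0, div_le_iff₀ hκ0]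
      exact hB x)
    (by
      have e : ∀ z : Ω × Ω, (κ z.1 z.2 / κ0) ^ 2 = κ z.1 z.2 ^ 2 / κ0 ^ 2 := by
        intro z; rw [div_pow]
      simp only [e]
      rw [integral_div, div_le_iff₀ (by positivity)]
      calc _ ≤ _ := h3
        _ = _ := by ring)
    (fun x => by
      have e : ∀ y, |κ x y / κ0| = |κ x y| / κ0 := by
        intro y; rw [abs_div, abs_of_pos hκ0]
      simp only [e]
      exact h4 x) h5 h6
  refine ⟨T, hT1, hT2, ?_, ?_⟩
  · intro X hX
    have h7 := hT3 X hX
    rw [hs] at h7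
    have h8 : ∑ i, ∑ j, κ (X i) (X j) - N * κ0 =
        ((∑ i, ∑ j, κ (X i) (X j)) / κ0 - N) * κ0 := by
      field_simp
    rw [h8, abs_mul, abs_of_pos hκ0]
    exact mul_le_mul_of_nonneg_right h7 hκ0.le
  · intro Y hY
    have h7 := hT4 Y hY
    have h8 : {X : Fin N → Ω | (N : ℝ) / 2 ≤ ∑ i, ∑ j, κ (X i) (Y j) / κ0} =
        {X | N * κ0 / 2 ≤ ∑ i, ∑ j, κ (X i) (Y j)} := by
      ext X
      simp only [Set.mem_ofPred_eq]
      rw [hs, le_div_iff₀ hκ0]
      constructor <;> intro h <;> linarith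
    rwa [h8] at h7

end Pool.Agent.Helper64.SB
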